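import Pool.Agent.H71.FX.Targets2

/-!
# Row EU: the prefix `∃…∃`, one element more
-/

set_option autoImplicit false

open Pool.Agent.H71.FX Pool.Agent.H71.PF

namespace Pool.Agent.H69.FX

open Classical in
theorem pf_EU (fe : T_FE) (fv : T_FV) (ss : T_SS) : T_EU := by
  intro F r b φ _ hV hF n hn
  obtain ⟨hn0, f, R, h⟩ := hn
  obtain ⟨c, -, hc⟩ := (fe (Fin n) f R φ 0 b (fun _ => ⟨0, hn0⟩)).1 (h _)
  set g : Fin n → Fin (n + 1) := Fin.castSucc with hg
  have hgi : Function.Injective g := Fin.castSucc_injective n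
  have hmi : Function.Injective (List.map g) := List.map_injective_iff.2 hgi
  set f' : ℕ → List (Fin (n + 1)) → Fin (n + 1) := fun i l' =>
    if hl : ∃ l : List (Fin n), l' = l.map g then g (f i hl.choose) else Fin.last n with hf'
  set R' : ℕ → List (Fin (n + 1)) → Prop := fun i l' => ∃ l, l' = l.map g ∧ R i l with hR'
  have h1 : ∀ i l, F i l.length → f' i (l.map g) = g (f i l) := by
    intro i l _
    have hl : ∃ l₁ : List (Fin n), l.map g = l₁.map g := ⟨l, rfl⟩
    have e : hl.choose = l := (hmi hl.choose_spec).symm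
    simp only [hf']
    rw [dif_pos hl, e]
  have h2 : ∀ i l, 1 ≤ l.length → l.length ≤ r → (R' i (l.map g) ↔ R i l) := by
    intro i l _ _
    constructor
    · rintro ⟨l₁, e, hl₁⟩
      rwa [hmi e]
    · intro hl
      exact ⟨l, rfl, hl⟩
  have h3 : φ.Sat f' R' (fun x => g (c x)) :=
    (ss (Fin n) (Fin (n + 1)) g hgi f f' R R' F r h1 h2 φ hF c).2 hc
  refine ⟨Nat.succ_pos n, f', R', fun v => ?_⟩
  refine (fe (Fin (n + 1)) f' R' φ 0 b v).2 ⟨fun x => if x < b then g (c x) else v x, ?_, ?_⟩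
  · intro i hi
    have hb : ¬ i < b := by omega
    exact if_neg hb
  · refine (fv (Fin (n + 1)) f' R' φ b _ _ hV ?_).1 h3
    intro i hi
    exact (if_pos hi).symm

end Pool.Agent.H69.FX
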